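import Pool.Agent.Run7.h965.MX.Ratio2

/-!
# Systems of variable words of multipliers: exactly the primes `K_m p + b (K_m - 1) / g`

Let `g ≥ 1` and `b` be integers. `p' = K p + b (K - 1) / g` means that `g p' + b = K (g p + b)`; for
`g = 3`, `b = 1`, `K = 4` this is `p' = 4 p + 1`, and `g = 1`, `b = ± 1`, `K = 2` give `p' = 2 p ± 1`.

A word is a finite list of pairs (position, letter), with increasing positions; positions and letters
are natural numbers. In a variable word some letters are replaced by a variable (`none`).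

1. Let `φ_j` be functions of words with positive integers as values such that `φ_j (s)` is a proper
   divisor of `φ_j (s t)` if the positions of `t` follow those of `s`, and let all values of `φ_j` be prime
   to `g_j` and to `b_j`. There are variable words `w_0 < w_1 < …` such that for every `j`, every `k`, all
   nonempty finite sets `F_0 < F_1 < … < F_k` of indices `≥ j` and ALL letters `a_i`, bounded by any
   function of `w_0, …, w_(i-1)` given in advance: if `s_m` is the word formed by the `w_i (a_i)` with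
   `i ∈ F_0 ∪ … ∪ F_m` and `K_m = φ_j (s_m) / φ_j (s_0)`, then for every `R` there are infinitely many
   primes `p` such that among ALL the numbers `α p + β` with `1 ≤ α ≤ R`, `|β| ≤ R`, the primes are
   exactly the `p_m` with `g_j p_m + b_j = K_m (g_j p + b_j)`, `m ≤ k`. The same holds for the powers
   `K_m ^ c`, for every `c` bounded by any function of the words before `F_0` given in advance.

2. Example: let `d_j (p, a) ≥ 2` be arrays of integers prime to `g_j` and `b_j`. There are finite sets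
   `V_i`, `W_i` of positions, `W_i ≠ ∅`, with `V_0 ∪ W_0 < V_1 ∪ W_1 < …` and letters `β_p` such that, with
   `y_i (a) = ∏_{p ∈ V_i} d_j (p, β_p) ∏_{p ∈ W_i} d_j (p, a)` and `y_F = ∏_{i ∈ F} y_i (a_i)`, this holds for
   the multipliers `1, y_{F_0}^c, (y_{F_0} y_{F_1})^c, …, (y_{F_0} ⋯ y_{F_k})^c`, for all `F_0 < … < F_k` in
   `[j, ∞)`, all choices of the letters `a_i` (bounded by any given function of the earlier positions)
   and every exponent `c = y_E`, `E < F_0`.
-/

set_option autoImplicit false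

namespace Pool.Agent.Results.MP_3df474_nt.MultipliersFromWords

open Finset

/-- The word formed by the words `w i (a i)`, `i ∈ I`: in the variable word `w i` the letter `a i` is put
in place of the variable `none`. -/
def word (w : ℕ → List (ℕ × Option ℕ)) (a : ℕ → ℕ) (I : Finset ℕ) : List (ℕ × ℕ) :=
  (I.sort (· ≤ ·)).flatMap fun i => (w i).map fun p => (p.1, p.2.getD (a i))

/-- The positions of a word increase. -/
def Increasing (s : List (ℕ × ℕ)) : Prop := s.Pairwise fun x y => x.1 < y.1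

/-- A sequence of variable words: the variable occurs in each of them, and the positions increase within
each word and from each word to the next one. -/
structure VariableWords (w : ℕ → List (ℕ × Option ℕ)) : Prop where
  var : ∀ i, ∃ p ∈ w i, p.2 = none
  incr : ∀ i, (w i).Pairwise fun x y => x.1 < y.1
  lt : ∀ i, ∀ x ∈ w i, ∀ y ∈ w (i + 1), x.1 < y.1

/-- For every `R` there are infinitely many primes `p` such that among all numbers `α p + β`,
`1 ≤ α ≤ R`, `|β| ≤ R`, exactly those with `α = K m`, `g β = b (α - 1)`, `m ≤ k`, are prime (that is, the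
numbers `p'` with `g p' + b = K m (g p + b)`). -/
def ExactMultipliers (g : ℕ) (b : ℤ) (k : ℕ) (K : ℕ → ℕ) : Prop :=
  ∀ R : ℕ, {p : ℕ | p.Prime ∧ ∀ α β : ℤ, 1 ≤ α → α ≤ R → |β| ≤ R →
    (Nat.Prime (α * p + β).toNat ↔ ∃ m ≤ k, α = K m ∧ g * β = b * (α - 1))}.Infinite

theorem result :
    -- (1) functions of words
    (∀ (φ : ℕ → List (ℕ × ℕ) → ℕ) (g : ℕ → ℕ) (b : ℕ → ℤ), (∀ j, 1 ≤ g j) →
      (∀ j s t, s ≠ [] → t ≠ [] → Increasing (s ++ t) →
        φ j s ∣ φ j (s ++ t) ∧ φ j s < φ j (s ++ t)) →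
      (∀ j s, s ≠ [] → Increasing s →
        1 ≤ φ j s ∧ IsCoprime (φ j s : ℤ) (g j : ℤ) ∧ IsCoprime (φ j s : ℤ) (b j)) →
      ∀ H C : List (List (ℕ × Option ℕ)) → ℕ,
      ∃ w, VariableWords w ∧
        ∀ (j k c i₀ : ℕ) (F : ℕ → Finset ℕ) (a : ℕ → ℕ), j ≤ i₀ → 1 ≤ c →
          (c = 1 ∨ c ≤ C ((List.range i₀).map w)) →
          (∀ l ≤ k, (F l).Nonempty) → (∀ l ≤ k, ∀ i ∈ F l, i₀ ≤ i) →
          (∀ l < k, ∀ i ∈ F l, ∀ i' ∈ F (l + 1), i < i') →
          (∀ i, a i ≤ H ((List.range i).map w)) →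
          (∀ m ≤ k, φ j (word w a (F 0)) ∣ φ j (word w a ((range (m + 1)).biUnion F))) ∧
          ExactMultipliers (g j) (b j) k fun m =>
            (φ j (word w a ((range (m + 1)).biUnion F)) / φ j (word w a (F 0))) ^ c) ∧
    -- (2) arrays of multipliers
    (∀ (g : ℕ → ℕ) (b : ℕ → ℤ) (d : ℕ → ℕ → ℕ → ℕ), (∀ j, 1 ≤ g j) → (∀ j p a, 2 ≤ d j p a) →
      (∀ j p a, IsCoprime (d j p a : ℤ) (g j : ℤ) ∧ IsCoprime (d j p a : ℤ) (b j)) → ∀ h : ℕ → ℕ,
      ∃ (V W : ℕ → Finset ℕ) (β : ℕ → ℕ), (∀ i, (W i).Nonempty) ∧ (∀ i, Disjoint (V i) (W i)) ∧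
        (∀ i, ∀ x ∈ V i ∪ W i, ∀ y ∈ V (i + 1) ∪ W (i + 1), x < y) ∧
        ∀ (j k : ℕ) (F : ℕ → Finset ℕ) (E : Finset ℕ) (a : ℕ → ℕ), (∀ l ≤ k, (F l).Nonempty) →
          (∀ l ≤ k, ∀ i ∈ F l, j ≤ i) → (∀ l < k, ∀ i ∈ F l, ∀ i' ∈ F (l + 1), i < i') →
          (∀ i ∈ E, ∀ i' ∈ F 0, i < i') →
          (∀ i, a i ≤ i ∨ ∃ i' < i, ∃ p ∈ V i' ∪ W i', a i ≤ h p) →
          ExactMultipliers (g j) (b j) (k + 1) fun m => (∏ i ∈ (range m).biUnion F,
            ((∏ p ∈ V i, d j p (β p)) * ∏ p ∈ W i, d j p (a i))) ^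
              (∏ i ∈ E, ((∏ p ∈ V i, d j p (β p)) * ∏ p ∈ W i, d j p (a i)))) := by
  refine ⟨fun φ g b hg h1 h2 H C => ?_, fun g b d hg hd hc h => ?_⟩
  · obtain ⟨w, hw1, hw2, hw3, hw4⟩ := Pool.Agent.Run7.h965.MX.ratio_main φ g hg b
      (fun j => ⟨fun s t hs ht hi => (h1 j s t hs ht hi).1, fun s t hs ht hi => (h1 j s t hs ht hi).2,
        fun s hs hi => (h2 j s hs hi).1, fun s hs hi => (h2 j s hs hi).2.1,
        fun s hs hi => (h2 j s hs hi).2.2⟩) H C 0
    exact ⟨w, ⟨hw1, fun i => (hw2 i).2.1, hw3⟩, hw4⟩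
  · exact Pool.Agent.Run7.h965.MX.ratio_arrays g hg b d hd (fun j p a => (hc j p a).1)
      (fun j p a => (hc j p a).2) h

end Pool.Agent.Results.MP_3df474_nt.MultipliersFromWords
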