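import Mathlib
import Pool.Agent.Run7.h166.TS.Mul2

/-!
# Any set of ratios `(3 q + 1) / (3 p + 1)` in three lists

Let `g ≥ 1` and `b` be coprime integers. For an integer `n` and `u = 0, 1, 2, …` let `n_u` be the solution
`n_u = (1 + g u) n + b u` of `g n_u + b = (1 + g u) (g n + b)`. For `g = 3`, `b = 1` these are the numbers
`n, 4 n + 1, 7 n + 2, 10 n + 3, …`, and the question is whether `n_0` and `n_1` are prime at the same time for
infinitely many `n`; for `g = 1`, `b = 1` one has `n_1 = 2 n + 1`, and in general `n_1 = (g + 1) n + b`.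

For every `k` there are `C` and `B` such that for all `g`, `b` and EVERY finite set `U` of natural numbers, of
any size, with `(1 + g u, b) = 1` for `u ∈ U` (for `b = ±1` this is no condition) which misses a residue class
modulo each prime `p ≤ B` dividing `g` (for `g = 3`: modulo `3`; for `g = 1` this is no condition), all
members of `U` with at most `C` exceptions can be arranged in THREE lists such that for any at most `k` successive
members `u_1, …, u_j` of a list the numbers `n_(u_1), …, n_(u_j)` are all prime, and `n_u` is composite for all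
`u ≤ R` outside `U` (for any given `R`), for at least `N ^ (1 - η)` of the integers `n ≤ N`, for every `η > 0` and
arbitrarily large `N`. Then the numbers `g p + b` for these primes `p` are proportional to
`1 + g u_1, …, 1 + g u_j`. The prime `k`-tuples conjecture predicts this for any arrangement in one list.

Known results give a proportion of the times `t` in structured sets of powers `4 ^ t = 1 + 3 u`. Here the set `U`
is arbitrary, and nothing but a bounded number of elements is left out.

Proof. Coloured Maynard-Tao theorem with a constant above one quarter (starting files,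
`Pool.Agent.TH899.UG.Uni.exactU`); modulo primes which do not divide `g` there is no local obstruction, as there
the point `n = -b / g` is fixed. Of any four lists with long cliques at their ends two are hit by primes
many times and can be joined.
-/

set_option autoImplicit false

namespace Pool.Agent.Results.MP_3df474_nt.ProportionalThreeLists

open Filter Finset

open Classical in
/-- the positive integers `n ≤ N` such that `(1 + g u) n + b u` is prime for all `u ∈ w` and not prime for all
`u ≤ R` outside `U` -/
noncomputable def places (g b : ℤ) (U : Set ℕ) (R : ℕ) (w : Finset ℕ) (N : ℕ) : Finset ℕ :=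
  (Icc 1 N).filter (fun n : ℕ => (∀ u ∈ w, ((1 + g * u) * n + b * u : ℤ).toNat.Prime) ∧
    ∀ u : ℕ, u ≤ R → u ∉ U → ¬ ((1 + g * u) * n + b * u : ℤ).toNat.Prime)

/-- the numbers `(1 + g u) n + b u`, `u ∈ w`, are prime together for many `n` -/
def Together (g b : ℤ) (U : Set ℕ) (w : Finset ℕ) : Prop := ∀ R : ℕ, ∀ η : ℝ, 0 < η →
  ∃ᶠ N : ℕ in atTop, (N : ℝ) ^ (1 - η) ≤ ((places g b U R w N).card : ℝ)

/-- **Every set of ratios in three lists.** -/
theorem result (k : ℕ) : ∃ C B : ℕ, ∀ g b : ℤ, 1 ≤ g → IsCoprime g b → ∀ U : Finset ℕ,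
    (∀ u ∈ U, IsCoprime (1 + g * (u : ℤ)) b) →
    (∀ p : ℕ, p.Prime → p ≤ B → (p : ℤ) ∣ g → ∃ c : ℕ, ∀ u ∈ U, ¬ u ≡ c [MOD p]) →
    ∃ e : Fin 3 → List ℕ, (∀ i, (e i).Nodup) ∧ (∀ i j, i ≠ j → List.Disjoint (e i) (e j)) ∧
      (∀ i, ∀ x ∈ e i, x ∈ U) ∧ (∃ E : Finset ℕ, E.card ≤ C ∧ ∀ x ∈ U, (∀ i, x ∉ e i) → x ∈ E) ∧
      ∀ i, ∀ w : List ℕ, w <:+: e i → w ≠ [] → w.length ≤ k → Together g b (U : Set ℕ) w.toFinset := by
  obtain ⟨C, B, h⟩ := Run7.h166.TS.gf_lists k
  exact ⟨C, B, fun g b hg hgb U hU hloc => h g b hg hgb U hU hloc⟩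

end Pool.Agent.Results.MP_3df474_nt.ProportionalThreeLists
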