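import Mathlib
import Pool.Agent.Run7.h189.CO.Words

/-!
# The number of words of the primes along the orbits of `x ↦ 4 x + 1` and of all affine maps

Let `S x = a x + b` with integers `a ≥ 2` and `b` prime to `a`, for instance `S x = 4 x + 1`. The word of length `n + 1` of
a prime `p` is the sequence `w` with `w_j = 1` if `S^j(p)` is prime and `w_j = 0` otherwise, `0 ≤ j ≤ n`. The question is
about the word `11`: does it occur for infinitely many primes? For `a = 2` there are no local obstructions and the prime
`k`-tuples conjecture predicts that all the `2^n` words with `w_0 = 1` occur for infinitely many primes.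

Here: for every `n ≥ e^1000` and EVERY such map `S` there are at least `exp ((log n)² / 100)` words of length `n + 1`
which occur for infinitely many primes `p`; the bound does not depend on `S`. More precisely, if `m ≥ 2`,
`log K ≥ 4 m + 29 / 50` and `n ≥ 4 K⁴`, there are at least `K^(m+1) / (n + 1)` words.

Proof. The theorem of the starting files that `m + 1` of any `K` admissible forms are simultaneously prime
(`Pool.Agent.H358R5.forms_many`), with exact patterns (`Run7.h189.CO.Exact`), is applied to the forms of the iterates at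
`K` times, one in each of `K` blocks of `K` even squares; every set of squares avoids a residue class modulo every prime.
Different choices give different sets of times of primes unless they agree on `m + 1` blocks. (For the indicator sequence
of the primes itself the corresponding theorem is helper275's `MP_8923e7_nt.WordComplexity`.)
-/

set_option autoImplicit false

namespace Pool.Agent.Results.MP_3df474_nt.WordComplexityOfOrbits

open Filter Finset

/-- the `j`-th iterate of `x ↦ a x + b` at `x` -/
def S (a b : ℤ) (j : ℕ) (x : ℤ) : ℤ := (fun y : ℤ => a * y + b)^[j] x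

/-- the words of length `n + 1` which occur for infinitely many primes `p`: `w j` is true if and only if `S^j(p)` is
prime -/
def Words (a b : ℤ) (n : ℕ) : Set (Fin (n + 1) → Bool) :=
  {w | {p : ℕ | p.Prime ∧ ∀ j : Fin (n + 1), (w j = true ↔ (S a b j p).toNat.Prime)}.Infinite}

theorem It_eq (a b : ℤ) (j : ℕ) (x : ℤ) : Run7.h189.CO.It a b j x = S a b j x := by
  induction j with
  | zero => exact Run7.h189.CO.It_zero a b x
  | succ j ih =>
    rw [Run7.h189.CO.It_succ, ih]
    unfold S
    rw [Function.iterate_succ_apply']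

theorem words_eq (a b : ℤ) (n : ℕ) : Run7.h189.CO.words a b n = Words a b n := by
  unfold Run7.h189.CO.words Words
  simp only [It_eq]

theorem asym (f : ℕ → ℕ) (h : ∀ m K n : ℕ, 2 ≤ m → 4 * (m : ℝ) + 29 / 50 ≤ Real.log K → 4 * K ^ 4 ≤ n →
    K ^ (m + 1) ≤ (n + 1) * f n) (n : ℕ) (hn : Real.exp 1000 ≤ n) :
    Real.exp (Real.log n ^ 2 / 100) ≤ f n := by
  have hn0 : (0 : ℝ) < n := (Real.exp_pos _).trans_le hn
  set L : ℝ := Real.log n with hL
  have hL1 : 1000 ≤ L := (Real.le_log_iff_exp_le hn0).2 hn
  set m : ℕ := ⌊L / 17⌋₊ with hm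
  have hm1 : (m : ℝ) ≤ L / 17 := Nat.floor_le (by positivity)
  have hm2 : L / 17 < m + 1 := Nat.lt_floor_add_one _
  have hm3 : 2 ≤ m := by
    have : (2 : ℝ) < m + 1 := by linarith
    have : (1 : ℝ) < m := by linarith
    exact_mod_cast this
  set K : ℕ := ⌈Real.exp (4 * m + 29 / 50)⌉₊ with hK
  have hK1 : Real.exp (4 * m + 29 / 50) ≤ K := Nat.le_ceil _
  have hKpos : (0 : ℝ) < K := (Real.exp_pos _).trans_le hK1
  have hK2 : (K : ℝ) ≤ Real.exp (4 * m + 1) := by
    have h1 : (K : ℝ) < Real.exp (4 * m + 29 / 50) + 1 := Nat.ceil_lt_add_one (Real.exp_pos _).le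
    have h2 : Real.exp (4 * (m : ℝ) + 1) = Real.exp (4 * m + 29 / 50) * Real.exp (21 / 50) := by
      rw [← Real.exp_add]
      congr 1
      ring
    have h3 : (21 / 50 : ℝ) + 1 ≤ Real.exp (21 / 50) := Real.add_one_le_exp _
    have h4 : (1 : ℝ) + (4 * m + 29 / 50) ≤ Real.exp (4 * m + 29 / 50) := by
      have := Real.add_one_le_exp (4 * (m : ℝ) + 29 / 50)
      linarith
    have h5 : (2 : ℝ) ≤ m := by exact_mod_cast hm3
    have h6 : (0 : ℝ) ≤ Real.exp (4 * m + 29 / 50) := (Real.exp_pos _).le
    rw [h2]
    nlinarith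
  have hKn : 4 * K ^ 4 ≤ n := by
    have h1 : (4 * K ^ 4 : ℝ) ≤ n := by
      calc (4 * K ^ 4 : ℝ) ≤ 4 * Real.exp (4 * m + 1) ^ 4 := by
            gcongr
        _ ≤ Real.exp 2 * Real.exp (4 * m + 1) ^ 4 := by
            gcongr
            have h2 : (1 : ℝ) + 1 ≤ Real.exp 1 := Real.add_one_le_exp _
            have h3 : Real.exp 2 = Real.exp 1 * Real.exp 1 := by rw [← Real.exp_add]; norm_num
            rw [h3]
            nlinarith
        _ = Real.exp (16 * m + 6) := by
            rw [← Real.exp_nat_mul, ← Real.exp_add]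
            congr 1
            push_cast
            ring
        _ ≤ Real.exp L := by
            apply Real.exp_le_exp.2
            linarith
        _ = n := Real.exp_log hn0
    exact_mod_cast h1
  have h1 := h m K n hm3 ((Real.le_log_iff_exp_le hKpos).2 hK1) hKn
  have h2 : ((K : ℝ)) ^ (m + 1) ≤ (n + 1) * f n := by exact_mod_cast h1
  have h3 : Real.exp ((4 * m + 29 / 50) * (m + 1)) ≤ (K : ℝ) ^ (m + 1) := by
    calc Real.exp ((4 * m + 29 / 50) * (m + 1)) = Real.exp (4 * m + 29 / 50) ^ (m + 1) := by
          rw [← Real.exp_nat_mul]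
          congr 1
          push_cast
          ring
      _ ≤ (K : ℝ) ^ (m + 1) := by gcongr
  have h4 : (n : ℝ) + 1 ≤ Real.exp (L + 1) := by
    have h5 : Real.exp (L + 1) = n * Real.exp 1 := by rw [Real.exp_add, Real.exp_log hn0]
    have h6 : (1 : ℝ) + 1 ≤ Real.exp 1 := Real.add_one_le_exp _
    have h7 : (1 : ℝ) ≤ n := by
      have : (0 : ℕ) < n := by exact_mod_cast hn0
      exact_mod_cast this
    rw [h5]
    nlinarith
  have h5 : Real.exp (L ^ 2 / 100) * Real.exp (L + 1) ≤ Real.exp (L + 1) * f n := by
    rw [← Real.exp_add]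
    refine le_trans ?_ (h3.trans (h2.trans (mul_le_mul_of_nonneg_right h4 (Nat.cast_nonneg _))))
    apply Real.exp_le_exp.2
    nlinarith
  rw [mul_comm] at h5
  exact le_of_mul_le_mul_left h5 (Real.exp_pos _)

/-- **The number of words of the primes along the orbits of affine maps.** For every map `S x = a x + b` with `a ≥ 2` and
`b` prime to `a`: (1) if `m ≥ 2`, `log K ≥ 4 m + 29 / 50` and `n ≥ 4 K⁴`, then at least `K^(m+1) / (n + 1)` words of
length `n + 1` occur for infinitely many primes; (2) for every `n ≥ e^1000` at least `exp ((log n)² / 100)` words of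
length `n + 1` occur for infinitely many primes. -/
theorem result (a b : ℤ) (ha : 2 ≤ a) (hab : IsCoprime a b) :
    (∀ m K n : ℕ, 2 ≤ m → 4 * (m : ℝ) + 29 / 50 ≤ Real.log K → 4 * K ^ 4 ≤ n →
      K ^ (m + 1) ≤ (n + 1) * (Words a b n).ncard) ∧
    ∀ n : ℕ, Real.exp 1000 ≤ n → Real.exp (Real.log n ^ 2 / 100) ≤ (Words a b n).ncard := by
  have h : ∀ m K n : ℕ, 2 ≤ m → 4 * (m : ℝ) + 29 / 50 ≤ Real.log K → 4 * K ^ 4 ≤ n →
      K ^ (m + 1) ≤ (n + 1) * (Words a b n).ncard := by
    intro m K n hm hK hn
    rw [← words_eq]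
    exact Run7.h189.CO.words_card ha hab m K hm hK n hn
  exact ⟨h, asym _ h⟩

end Pool.Agent.Results.MP_3df474_nt.WordComplexityOfOrbits
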